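import Pool.Agent.Helper52_ABA.LStmts

/-! # Closing a backtrack (module CLOSE, squad ABL, MP_d857f1_al) -/

namespace Pool.Agent.ABA.B.H56

open Pool.Agent.ABA.B Pool.Agent.ABA.B.TG

variable {V E : Type} {S : TG V E}

theorem fan_append {e g h k : E} {φ : List E} (hf : S.Fan e φ g) (ht : S.Tri g h k) :
    S.Fan e (φ ++ [h]) k := by
  induction hf with
  | nil e => exact Fan.cons ht (Fan.nil _)
  | cons t _ ih => exact Fan.cons t (ih ht)

theorem fan_split {e g h : E} {φ φ₁ φ₂ : List E} (hf : S.Fan e φ g) (h' : φ = φ₁ ++ h :: φ₂) :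
    ∃ g₁ g₂, S.Fan e φ₁ g₁ ∧ S.Tri g₁ h g₂ ∧ S.Fan g₂ φ₂ g := by
  induction hf generalizing φ₁ with
  | nil e => simp at h'
  | cons t hf ih =>
    cases φ₁ with
    | nil =>
      simp only [List.nil_append, List.cons.injEq] at h'
      obtain ⟨rfl, rfl⟩ := h'
      exact ⟨_, _, Fan.nil _, t, hf⟩
    | cons a φ₁ =>
      simp only [List.cons_append, List.cons.injEq] at h'
      obtain ⟨rfl, h'⟩ := h'
      obtain ⟨g₁, g₂, h1, h2, h3⟩ := ih h'
      exact ⟨g₁, g₂, Fan.cons t h1, h2, h3⟩

theorem fan_delta {e g : E} {φ : List E} (hf : S.Fan e φ g) :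
    S.δ e = (φ.map S.δ).sum + S.δ g := by
  induction hf with
  | nil e => simp
  | cons t _ ih => simp only [List.map_cons, List.sum_cons]; rw [S.δ_tri t, ih]; ring

theorem fan_tgt {e g : E} {φ : List E} (hf : S.Fan e φ g) : S.tgt g = S.tgt e := by
  induction hf with
  | nil e => rfl
  | cons t _ ih => rw [ih, Tri.tgt' t]

theorem fan_isP {e g : E} {φ : List E} (hf : S.Fan e φ g) : S.IsP (S.src e) φ (S.src g) := by
  induction hf with
  | nil e => rfl
  | cons t _ ih => exact ⟨Tri.src' t, by rw [← Tri.mid' t]; exact ih⟩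

/-- circle lemma -/
theorem circle (hR : RotStmt) (hC : ColStmt) (hG : GlueStmt) (hF : FanStmt) (N : ℕ) :
    ∀ (L : ℕ) (w : List E), w.length ≤ L → ∀ (e : E) (φ : List E) (x : V), S.Fan e φ e →
      S.D x (w ++ φ) N → ∃ m ≤ N + φ.length, S.D x w m := by
  induction N using Nat.strong_induction_on with
  | _ N ihN =>
  intro L
  induction L with
  | zero =>
    intro w hw e φ x hf hD
    have : w = [] := List.eq_nil_of_length_eq_zero (by omega)
    subst this
    exact ⟨0, Nat.zero_le _, D.nil _⟩
  | succ L ihL =>
  intro w hw e φ x hf hD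
  cases w with
  | nil => exact ⟨0, Nat.zero_le _, D.nil _⟩
  | cons f w' =>
  obtain ⟨rfl, h⟩ := hD.cases'
  rcases h with ⟨b, a, m, k, hw', rfl, hb, ha⟩ | ⟨f1, f2, m, rfl, ht, h⟩
  · rcases List.append_eq_append_iff.1 hw' with ⟨c, hc1, hc2⟩ | ⟨c, hc1, hc2⟩
    · -- b = w' ++ c, φ = c ++ inv f :: a
      obtain ⟨g₁, g₂, hf1, hT, hf2⟩ := fan_split hf hc2
      subst hc1
      have hPw : S.IsP (S.tgt f) w' (S.src e) := by
        obtain ⟨z, h1, h2⟩ := isP_append.1 hb.isP
        have hz := fan_isP hf1
        -- c from src e to src g₁ = tgt f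
        have h3 : S.src g₁ = S.tgt f := by rw [← Tri.src' hT, src_inv]
        cases c with
        | nil =>
          have e1 : z = S.tgt f := h2
          have e2 : S.src e = S.src g₁ := hz
          rw [e2, h3, ← e1]; exact e1 ▸ h1
        | cons c0 c' =>
          have : z = S.src e := h2.src_eq hz
          rw [← this]; exact h1
      have h1 := (hF V E S (S.tgt f) w' [] c e g₁ m hf1).2 hPw (by simpa using hb)
      have h2 := (hF V E S (S.src f) [] [] a g₂ e k hf2).2
        (by show S.src f = S.src g₂; rw [Tri.mid' hT, tgt_inv]) (by simpa using ha)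
      have hgc : S.tgt g₁ = S.tgt e := fan_tgt hf1
      -- rotate
      have h1' : S.D (S.tgt e) ([S.inv g₁] ++ (w' ++ [e])) (m + c.length) := by
        refine hR V E S (S.tgt f) (S.tgt e) (w' ++ [e]) [S.inv g₁] _ (by simpa using h1) ?_
        exact isP_append.2 ⟨_, hPw, rfl, rfl⟩
      have h2' : S.D (S.tgt e) ([S.inv e] ++ [g₂]) (k + a.length) := by
        refine hR V E S (S.src f) (S.tgt e) [g₂] [S.inv e] _ (by simpa using h2) ?_
        refine ⟨?_, ?_⟩
        · rw [Tri.mid' hT, tgt_inv]
        · show S.tgt g₂ = S.tgt e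
          rw [Tri.tgt' hT, hgc]
      have h3 := hG V E S (S.tgt e) (S.inv g₁ :: w') [g₂] e _ _ (by simpa using h1') (by simpa using h2')
      have h4 : S.D (S.tgt f) ((w' ++ [g₂]) ++ [S.inv g₁]) (m + c.length + (k + a.length)) := by
        refine hR V E S (S.tgt e) (S.tgt f) [S.inv g₁] (w' ++ [g₂]) _ (by simpa using h3) ?_
        refine ⟨?_, ?_⟩
        · rw [src_inv, hgc]
        · show S.tgt (S.inv g₁) = S.tgt f
          rw [tgt_inv, ← Tri.src' hT, src_inv]
      have hT' : S.Tri f g₂ (S.inv g₁) := by
        have := S.tri_rot hT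
        rwa [S.inv_inv] at this
      have h5 := hC V E S (S.tgt f) w' [] f g₂ (S.inv g₁) _ (by simpa using h4) hT'
      have h6 : S.D (S.src f) ([f] ++ w') (m + c.length + (k + a.length) + 1) := by
        refine hR V E S (S.tgt f) (S.src f) w' [f] _ (by simpa using h5) ?_
        obtain ⟨z, q1, q2⟩ := isP_append.1 h5.isP
        rw [q2.1]; exact q1
      refine ⟨_, ?_, by simpa using h6⟩
      rw [hc2]; simp only [List.length_append, List.length_cons]; omega
    · -- w' = b ++ c, inv f :: a = c ++ φ
      cases c with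
      | nil =>
        -- same as before, with c = []
        simp only [List.append_nil] at hc1
        simp only [List.nil_append] at hc2
        subst hc1
        have hc2' : φ = [] ++ S.inv f :: a := hc2.symm
        obtain ⟨g₁, g₂, hf1, hT, hf2⟩ := fan_split hf hc2'
        cases hf1
        -- now g₁ = e
        have hPw : S.IsP (S.tgt f) w' (S.src e) := by
          have h3 : S.src e = S.tgt f := by rw [← Tri.src' hT, src_inv]
          rw [h3]; exact hb.isP
        have h2 := (hF V E S (S.src f) [] [] a g₂ e k hf2).2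
          (by show S.src f = S.src g₂; rw [Tri.mid' hT, tgt_inv]) (by simpa using ha)
        have h1 := (hF V E S (S.tgt f) w' [] [] e e m (Fan.nil e)).2 hPw (by simpa using hb)
        have h1' : S.D (S.tgt e) ([S.inv e] ++ (w' ++ [e])) (m + 0) := by
          refine hR V E S (S.tgt f) (S.tgt e) (w' ++ [e]) [S.inv e] _ (by simpa using h1) ?_
          exact isP_append.2 ⟨_, hPw, rfl, rfl⟩
        have h2' : S.D (S.tgt e) ([S.inv e] ++ [g₂]) (k + a.length) := by
          refine hR V E S (S.src f) (S.tgt e) [g₂] [S.inv e] _ (by simpa using h2) ?_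
          refine ⟨?_, ?_⟩
          · rw [Tri.mid' hT, tgt_inv]
          · show S.tgt g₂ = S.tgt e
            rw [Tri.tgt' hT]
        have h3 := hG V E S (S.tgt e) (S.inv e :: w') [g₂] e _ _ (by simpa using h1')
          (by simpa using h2')
        have h4 : S.D (S.tgt f) ((w' ++ [g₂]) ++ [S.inv e]) (m + 0 + (k + a.length)) := by
          refine hR V E S (S.tgt e) (S.tgt f) [S.inv e] (w' ++ [g₂]) _ (by simpa using h3) ?_
          refine ⟨?_, ?_⟩
          · rw [src_inv]
          · show S.tgt (S.inv e) = S.tgt f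
            rw [tgt_inv, ← Tri.src' hT, src_inv]
        have hT' : S.Tri f g₂ (S.inv e) := by
          have := S.tri_rot hT
          rwa [S.inv_inv] at this
        have h5 := hC V E S (S.tgt f) w' [] f g₂ (S.inv e) _ (by simpa using h4) hT'
        have h6 : S.D (S.src f) ([f] ++ w') (m + 0 + (k + a.length) + 1) := by
          refine hR V E S (S.tgt f) (S.src f) w' [f] _ (by simpa using h5) ?_
          obtain ⟨z, q1, q2⟩ := isP_append.1 h5.isP
          rw [q2.1]; exact q1
        refine ⟨_, ?_, by simpa using h6⟩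
        rw [hc2']; simp only [List.length_append, List.length_cons, List.length_nil]; omega
      | cons c0 c' =>
        simp only [List.cons_append, List.cons.injEq] at hc2
        obtain ⟨rfl, rfl⟩ := hc2
        subst hc1
        simp only [List.length_cons, List.length_append] at hw
        obtain ⟨m', hm', hD'⟩ : ∃ m' ≤ k + φ.length, S.D (S.src f) c' m' := by
          rcases Nat.lt_or_ge k (m + k) with hlt | hge
          · exact ihN k hlt c'.length c' le_rfl e φ _ hf ha
          · have hm0 : m = 0 := by omega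
            subst hm0
            rw [Nat.zero_add] at ihL
            exact ihL c' (by omega) e φ _ hf ha
        exact ⟨m + m', by omega, D.br hb hD'⟩
  · obtain ⟨m', hm', hD'⟩ := ihN m (by omega) (f1 :: f2 :: w').length (f1 :: f2 :: w') le_rfl e φ _ hf
      (by simpa using h)
    exact ⟨m' + 1, by omega, D.tri ht hD'⟩

/-- growing fan -/
theorem grow (hR : RotStmt) (hC : ColStmt) (hG : GlueStmt) (hF : FanStmt) (N : ℕ) :
    ∀ (e g : E) (φ w : List E) (x : V), S.Fan e φ g →
      S.D x (φ ++ g :: S.inv e :: w) N → ∃ m ≤ N + φ.length, S.D x w m := by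
  induction N using Nat.strong_induction_on with
  | _ N ih =>
  intro e g φ w x hf hD
  -- the base point
  have hx : x = S.src e := by
    cases hf with
    | nil => exact hD.src_eq
    | cons t _ => rw [← Tri.src' t]; exact hD.src_eq
  have hPφ : S.IsP x φ (S.src g) := by rw [hx]; exact fan_isP hf
  have hgt : S.tgt g = S.tgt e := fan_tgt hf
  have hD1 : S.D (S.src g) (g :: (S.inv e :: w ++ φ)) N := by
    have := hR V E S x (S.src g) φ (g :: S.inv e :: w) N hD hPφ
    simpa using this
  obtain ⟨-, h⟩ := hD1.cases'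
  rcases h with ⟨b, a, m, k, hw', rfl, hb, ha⟩ | ⟨g1, g2, m, rfl, ht, h⟩
  · cases b with
    | nil =>
      simp only [List.cons_append, List.nil_append, List.cons.injEq] at hw'
      obtain ⟨he, rfl⟩ := hw'
      have he' : e = g := by rw [← S.inv_inv e, he, S.inv_inv]
      subst he'
      have hm0 : m = 0 := hb.nil'
      subst hm0
      rw [hx]
      obtain ⟨m', hm', hD'⟩ := circle hR hC hG hF k w.length w le_rfl e φ _ hf ha
      exact ⟨m', by omega, hD'⟩
    | cons b0 b' =>
      simp only [List.cons_append, List.cons.injEq] at hw'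
      obtain ⟨rfl, hw'⟩ := hw'
      rcases List.append_eq_append_iff.1 hw' with ⟨c, hc1, hc2⟩ | ⟨c, hc1, hc2⟩
      · -- b' = w ++ c, φ = c ++ inv g :: a : impossible
        exfalso
        obtain ⟨g₁, g₂, hf1, hT, hf2⟩ := fan_split hf hc2
        have h1 := fan_delta hf2
        have h2 := ha.δ
        have h3 := S.δ_tri hT
        have h4 := S.δ_ne g₁
        rw [S.δ_inv] at h3
        apply h4
        rw [h3, h1, h2]; ring
      · -- w = b' ++ c, inv g :: a = c ++ φ
        cases c with
        | nil =>
          exfalso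
          simp only [List.nil_append] at hc2
          have hc2' : φ = [] ++ S.inv g :: a := hc2.symm
          obtain ⟨g₁, g₂, hf1, hT, hf2⟩ := fan_split hf hc2'
          have h1 := fan_delta hf2
          have h2 := ha.δ
          have h3 := S.δ_tri hT
          have h4 := S.δ_ne g₁
          rw [S.δ_inv] at h3
          apply h4
          rw [h3, h1, h2]; ring
        | cons c0 c' =>
          simp only [List.cons_append, List.cons.injEq] at hc2
          obtain ⟨rfl, rfl⟩ := hc2
          subst hc1
          have hPa : S.IsP (S.src g) c' (S.src e) := by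
            obtain ⟨z, h1, h2⟩ := isP_append.1 ha.isP
            cases hf with
            | nil =>
              have e1 : z = S.src e := h2
              exact e1 ▸ h1
            | cons t _ =>
              have e1 : z = S.src e := (h2.src_eq hPφ).trans hx
              exact e1 ▸ h1
          have h1 := (hF V E S (S.src g) c' [] φ e g k hf).2 hPa (by simpa using ha)
          have h2 : S.D (S.tgt g) ([S.inv g] ++ (c' ++ [e])) (k + φ.length) := by
            refine hR V E S (S.src g) (S.tgt g) (c' ++ [e]) [S.inv g] _ (by simpa using h1) ?_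
            exact isP_append.2 ⟨_, hPa, rfl, hgt.symm⟩
          have h3 := hG V E S (S.tgt g) (S.inv g :: c') b' e _ _ (by simpa using h2) hb
          -- rotate
          refine ⟨k + φ.length + m, by omega, ?_⟩
          refine hR V E S (S.tgt g) x (S.inv g :: c') b' _ h3 ?_
          refine ⟨by rw [src_inv], ?_⟩
          rw [tgt_inv, hx]; exact hPa
  · have h1 : S.D x (φ ++ (g1 :: g2 :: S.inv e :: w)) m := by
      refine hR V E S (S.src g) x (g1 :: g2 :: S.inv e :: w) φ m (by simpa using h) ?_
      have h0 : S.IsP (S.src g) ((g1 :: g2 :: S.inv e :: w) ++ φ) (S.src g) := by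
        simpa using h.isP
      obtain ⟨z', q3, q4⟩ := isP_append.1 h0
      have hz' : z' = x := by
        cases hf with
        | nil => rw [hx]; exact q4
        | cons t _ => exact q4.src_eq hPφ
      rw [← hz']; exact q3
    obtain ⟨m', hm', hD'⟩ := ih m (by omega) e g2 (φ ++ [g1]) w x (fan_append hf ht)
      (by simpa using h1)
    refine ⟨m', ?_, hD'⟩
    simp only [List.length_append, List.length_cons, List.length_nil] at hm'
    omega

/-- closing a backtrack -/
theorem close (_ : InsStmt) (hR : RotStmt) (hC : ColStmt) (hG : GlueStmt) (hF : FanStmt) :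
    CloseStmt := by
  intro V E S x α β e n hD
  obtain ⟨z, q1, q2⟩ := isP_append.1 hD.isP
  have hz : S.src e = z := q2.1
  subst hz
  have h1 := hR V E S x (S.src e) α (e :: S.inv e :: β) n hD q1
  obtain ⟨m, hm, h2⟩ := grow hR hC hG hF n e e [] (β ++ α) (S.src e) (Fan.nil e) (by simpa using h1)
  refine ⟨m, by simpa using hm, ?_⟩
  refine hR V E S (S.src e) x β α m h2 ?_
  have := q2.2.2
  rwa [tgt_inv] at this

end Pool.Agent.ABA.B.H56
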