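import Pool.Agent.Helper52_ABA.LStmts

/-! # Minimal discs are reduced (module MIR, squad ABL, MP_d857f1_al) -/

namespace Pool.Agent.ABA.B.H56

open Pool.Agent.ABA.B Pool.Agent.ABA.B.TG

variable {V E : Type} {S : TG V E}

/-! ## lists -/

theorem red_iff (v : List E) : Red v ↔ ∀ i a, v[i]? = some a → v[i + 2]? ≠ some a := by
  constructor
  · intro h i a h1 h2
    have hi2 : i + 2 < v.length := by
      by_contra hc
      rw [List.getElem?_eq_none (by omega)] at h2
      cases h2
    have hv : v = v.take i ++ v[i] :: v[i + 1] :: v[i + 2] :: v.drop (i + 3) := by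
      conv_lhs => rw [← List.take_append_drop i v]
      rw [List.drop_eq_getElem_cons (by omega), List.drop_eq_getElem_cons (by omega),
        List.drop_eq_getElem_cons (by omega)]
    have := h _ _ _ _ _ hv
    rw [List.getElem?_eq_getElem (by omega), Option.some.injEq] at h1 h2
    exact this (h1.trans h2.symm)
  · rintro h l a b c r rfl rfl
    refine h l.length a ?_ ?_
    · simp
    · simp

theorem red_reverse {v : List E} (h : Red v) : Red v.reverse := by
  intro l a b c r hv
  have : v = r.reverse ++ c :: b :: a :: l.reverse := by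
    rw [← List.reverse_reverse v, hv]; simp
  exact (h _ _ _ _ _ this).symm

theorem red_rev_append {u w : List E} (hu : Red u) (hw : Red w)
    (h1 : ∀ a, u[0]? = some a → w[1]? ≠ some a) (h2 : ∀ a, u[1]? = some a → w[0]? ≠ some a) :
    Red (u.reverse ++ w) := by
  have hu' := red_reverse hu
  rw [red_iff] at hu' hw ⊢
  intro i a ha hb
  rcases Nat.lt_or_ge (i + 2) u.reverse.length with hlt | hge
  · rw [List.getElem?_append_left (by omega)] at ha
    rw [List.getElem?_append_left hlt] at hb
    exact hu' i a ha hb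
  · rw [List.getElem?_append_right hge] at hb
    rcases Nat.lt_or_ge i u.reverse.length with hlt' | hge'
    · rw [List.getElem?_append_left hlt'] at ha
      rw [List.length_reverse] at hge hlt' hb
      rw [List.getElem?_reverse hlt'] at ha
      rcases Nat.lt_or_ge (i + 1) u.length with hx | hx
      · have e1 : u.length - 1 - i = 1 := by omega
        have e2 : i + 2 - u.length = 0 := by omega
        rw [e1] at ha; rw [e2] at hb
        exact h2 a ha hb
      · have e1 : u.length - 1 - i = 0 := by omega
        have e2 : i + 2 - u.length = 1 := by omega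
        rw [e1] at ha; rw [e2] at hb
        exact h1 a ha hb
    · rw [List.getElem?_append_right hge'] at ha
      have e1 : i + 2 - u.reverse.length = (i - u.reverse.length) + 2 := by omega
      rw [e1] at hb
      exact hw _ a ha hb

theorem red_cons {a : E} {w : List E} (hw : Red w) (h : w[1]? ≠ some a) : Red (a :: w) := by
  have : Red ([a].reverse ++ w) := by
    refine red_rev_append ?_ hw ?_ ?_
    · intro l x y z r hv
      have := congrArg List.length hv
      simp at this
      omega
    · intro b hb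
      simp at hb
      subst hb
      exact h
    · intro b hb
      simp at hb
  simpa using this

theorem red_short {w : List E} (hw : w.length ≤ 2) : Red w := by
  intro l x y z r hv
  have := congrArg List.length hv
  simp at this
  omega

theorem transfer {A : Type} (X : List A) (J : List (List A)) (Z p q : List A) (i : ℕ)
    (hi : i ≤ J.length) :
    (∀ l f1 f, (X :: J ++ [Z])[i]? = some (l ++ [f1, f]) →
      ∃ l', ((p ++ X) :: J ++ [Z ++ q])[i]? = some (l' ++ [f1, f])) ∧
    (∀ a b r, (X :: J ++ [Z])[i + 1]? = some (a :: b :: r) →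
      ∃ r', ((p ++ X) :: J ++ [Z ++ q])[i + 1]? = some (a :: b :: r')) := by
  constructor
  · intro l f1 f h
    cases i with
    | zero =>
      simp only [List.cons_append, List.getElem?_cons_zero, Option.some.injEq] at h
      subst h
      exact ⟨p ++ l, by simp⟩
    | succ i =>
      refine ⟨l, ?_⟩
      rw [List.cons_append, List.getElem?_cons_succ, List.getElem?_append_left (by omega)] at h ⊢
      exact h
  · intro a b r h
    rw [List.cons_append, List.getElem?_cons_succ] at h
    rcases Nat.lt_or_ge i J.length with hlt | hge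
    · refine ⟨r, ?_⟩
      rw [List.cons_append, List.getElem?_cons_succ]
      rw [List.getElem?_append_left hlt] at h ⊢
      exact h
    · have : i = J.length := by omega
      subst this
      refine ⟨r ++ q, ?_⟩
      rw [List.cons_append, List.getElem?_cons_succ]
      rw [List.getElem?_append_right le_rfl] at h ⊢
      simp at h ⊢
      rw [h]; simp

theorem head_cons {A : Type} {X : List A} {e : A} (h : X.head? = some e) : ∃ X0, X = e :: X0 := by
  cases X with
  | nil => simp at h
  | cons a X0 => simp at h; subst h; exact ⟨X0, rfl⟩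

/-! ## triangles -/

theorem tri1 {e e' e'' : E} (h : S.Tri e e' e'') : S.Tri (S.inv e) (S.inv e'') (S.inv e') := by
  have h1 := S.tri_swap h
  -- Tri e' e (inv e'')
  have h2 := S.tri_rot h1
  -- Tri (inv e) (inv e'') (inv e')
  exact h2

theorem tri2 {e e' e'' : E} (h : S.Tri e e' e'') : S.Tri e'' (S.inv e') e := by
  have h1 := S.tri_rot h
  -- Tri (inv e') e'' (inv e)
  have h2 := S.tri_swap h1
  -- Tri e'' (inv e') (inv (inv e))
  rwa [S.inv_inv] at h2

theorem tri3 {e e' e'' : E} (h : S.Tri e e' e'') : S.Tri (S.inv e'') (S.inv e) e' := by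
  have h1 := tri1 h
  have h2 := S.tri_swap h1
  rwa [S.inv_inv] at h2

/-- the first two letters determine each other -/
theorem uniq2 {e e' f f' : E} (h : S.Tri e f e') (h' : S.Tri e f' e') : f = f' := by
  have h1 := tri1 h
  have h2 := tri1 h'
  have := S.tri_uniq h1 h2
  rw [← S.inv_inv f, this, S.inv_inv]

/-! ## parts -/

theorem glue_tb (hI : InsStmt) {e e' e'' : E} {α' α'' : List E} {m' m'' : ℕ}
    (ht : S.Tri e e' e'') (h' : S.D (S.tgt e') (S.inv e' :: α') m')
    (h'' : S.D (S.tgt e'') (S.inv e'' :: α'') m'') :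
    S.D (S.tgt e) (S.inv e'' :: S.inv e' :: (α' ++ α'')) (m' + m'') := by
  have h1 := hI V E S (S.tgt e'') (S.src e'') [S.inv e''] α'' (S.inv e' :: α') m'' m'
    (by simpa using h'') ⟨by rw [src_inv], by rw [tgt_inv]; rfl⟩
    (by rw [Tri.mid' ht]; exact h')
  rw [Tri.tgt' ht] at h1
  rw [Nat.add_comm]
  simpa using h1

theorem min_tb (hI : InsStmt) {e e' e'' : E} {α' α'' : List E} {m' m'' : ℕ}
    (ht : S.Tri e e' e'') (h' : S.D (S.tgt e') (S.inv e' :: α') m')
    (h'' : S.D (S.tgt e'') (S.inv e'' :: α'') m'') :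
    S.D (S.tgt e) (S.inv e :: (α' ++ α'')) (m' + m'' + 1) := by
  have h1 := D.tri (tri1 ht) (by rw [src_inv]; exact glue_tb hI ht h' h'')
  rwa [src_inv] at h1

theorem glue_ta (hR : RotStmt) {e e' e'' : E} {α : List E} {m : ℕ}
    (ht : S.Tri e e' e'') (h : S.D (S.tgt e') (S.inv e' :: (α ++ [S.inv e''])) m) :
    S.D (S.tgt e) (S.inv e'' :: S.inv e' :: α) m := by
  have h1 := hR V E S (S.tgt e') (S.tgt e) (S.inv e' :: α) [S.inv e''] m (by simpa using h) ?_
  · simpa using h1
  · have h2 : S.IsP (S.tgt e') ((S.inv e' :: α) ++ [S.inv e'']) (S.tgt e') := by simpa using h.isP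
    obtain ⟨z, q1, q2⟩ := isP_append.1 h2
    have : S.tgt e = z := by rw [← q2.1, src_inv, Tri.tgt' ht]
    rw [this]; exact q1

theorem min_ta (hR : RotStmt) {e e' e'' : E} {α : List E} {m : ℕ}
    (ht : S.Tri e e' e'') (h : S.D (S.tgt e') (S.inv e' :: (α ++ [S.inv e''])) m) :
    S.D (S.tgt e) (S.inv e :: α) (m + 1) := by
  have h1 := D.tri (tri1 ht) (by rw [src_inv]; exact glue_ta hR ht h)
  rwa [src_inv] at h1

/-- the triangle behind the root -/
theorem root (hI : InsStmt) (hR : RotStmt) (hN : NsBasicStmt) {e : E} {α : List E} {n : ℕ}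
    {X Y : List E} {J I : List (List E)} (h : S.NS e α n X Y J I) (hn : n ≠ 0) :
    ∃ f' f'' X0 Y0, S.Tri e f' f'' ∧ X = e :: f' :: X0 ∧ Y = S.inv e :: S.inv f'' :: Y0 ∧
      S.D (S.tgt e) (S.inv f'' :: S.inv f' :: α) (n - 1) := by
  cases h with
  | triv => exact absurd rfl hn
  | @tb _ e' e'' α' α'' n' n'' X' Y' X'' Y'' J' I' J'' I'' ht h' h'' =>
    obtain ⟨b1, b2, b3, b4, b5, b6, b7, b8, b9, b10, b11⟩ := hN _ _ _ _ _ _ _ _ _ _ h'
    obtain ⟨c1, c2, c3, c4, c5, c6, c7, c8, c9, c10, c11⟩ := hN _ _ _ _ _ _ _ _ _ _ h''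
    obtain ⟨X0, rfl⟩ := head_cons b7.1
    obtain ⟨Y0, rfl⟩ := head_cons c8.1
    refine ⟨e', e'', X0, Y0, ht, rfl, rfl, ?_⟩
    have := glue_tb hI ht b3 c3
    simpa using this
  | @ta _ e' e'' α n X Y v J I ht h' hα =>
    obtain ⟨b1, b2, b3, b4, b5, b6, b7, b8, b9, b10, b11⟩ := hN _ _ _ _ _ _ _ _ _ _ h'
    obtain ⟨X0, rfl⟩ := head_cons b7.1
    have hv := (b10 J.length v (by simp)).2
    have hlen : J.length + 1 = α.length := by simpa using b4
    rw [hlen] at hv
    simp at hv
    have hv' : v.reverse.head? = some (S.inv e'') := by simpa using hv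
    obtain ⟨Y0, hY0⟩ := head_cons hv'
    refine ⟨e', e'', X0, Y0, ht, rfl, by rw [hY0], ?_⟩
    have := glue_ta hR ht b3
    simpa using this

/-- the triangle behind a letter of `α` -/
theorem letter (hI : InsStmt) (hR : RotStmt) (hN : NsBasicStmt) {e : E} {α : List E} {n : ℕ}
    {X Y : List E} {J I : List (List E)} (h : S.NS e α n X Y J I) (hn : n ≠ 0) :
    ∀ α₁ f α₂, α = α₁ ++ f :: α₂ → ∃ f1 f2 l r, S.Tri f f1 f2 ∧
      S.D (S.tgt e) (S.inv e :: (α₁ ++ f1 :: f2 :: α₂)) (n - 1) ∧
      (X :: J ++ [Y.reverse])[α₁.length]? = some (l ++ [f1, f]) ∧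
      (X :: J ++ [Y.reverse])[α₁.length + 1]? = some (S.inv f :: S.inv f2 :: r) := by
  induction h with
  | triv => exact absurd rfl hn
  | @tb e e' e'' α' α'' n' n'' X' Y' X'' Y'' J' I' J'' I'' ht h' h'' ih' ih'' =>
    obtain ⟨b1, b2, b3, b4, b5, b6, b7, b8, b9, b10, b11⟩ := hN _ _ _ _ _ _ _ _ _ _ h'
    obtain ⟨c1, c2, c3, c4, c5, c6, c7, c8, c9, c10, c11⟩ := hN _ _ _ _ _ _ _ _ _ _ h''
    -- letters of the second part
    have key : ∀ c f α₂, α'' = c ++ f :: α₂ → ∃ f1 f2 l r, S.Tri f f1 f2 ∧
        S.D (S.tgt e) (S.inv e :: ((α' ++ c) ++ f1 :: f2 :: α₂)) (n' + n'' + 1 - 1) ∧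
        ((e :: X') :: (J' ++ (Y'.reverse ++ X'') :: J'') ++ [(S.inv e :: Y'').reverse])[(α' ++ c).length]?
          = some (l ++ [f1, f]) ∧
        ((e :: X') :: (J' ++ (Y'.reverse ++ X'') :: J'') ++
          [(S.inv e :: Y'').reverse])[(α' ++ c).length + 1]? = some (S.inv f :: S.inv f2 :: r) := by
      intro c f α₂ hc
      -- the indices
      have hidx : ∀ k, ((e :: X') :: (J' ++ (Y'.reverse ++ X'') :: J'') ++
          [(S.inv e :: Y'').reverse])[(α' ++ c).length + k]? =
          ((Y'.reverse ++ X'') :: J'' ++ [Y''.reverse ++ [S.inv e]])[c.length + k]? := by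
        intro k
        have e1 : ((e :: X') :: (J' ++ (Y'.reverse ++ X'') :: J'') ++ [(S.inv e :: Y'').reverse]) =
          ((e :: X') :: J') ++ ((Y'.reverse ++ X'') :: J'' ++ [Y''.reverse ++ [S.inv e]]) := by simp
        rw [e1, List.getElem?_append_right (by simp; omega)]
        congr 1
        simp only [List.length_append, List.length_cons]; omega
      by_cases hn'' : n'' = 0
      · obtain ⟨d1, d2, d3⟩ := c5 hn''
        have : c = [] ∧ f = e'' ∧ α₂ = [] := by
          rw [d1] at hc
          cases c with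
          | nil => simp at hc; exact ⟨rfl, hc.1.symm, hc.2⟩
          | cons a c =>
            have := congrArg List.length hc
            simp at this
        obtain ⟨rfl, rfl, rfl⟩ := this
        have hJ : J'' = [] := by
          apply List.eq_nil_of_length_eq_zero
          rw [d1] at c4; simpa using c4
        obtain ⟨Y0, rfl⟩ := head_cons b8.1
        refine ⟨S.inv e', e, Y0.reverse, [], tri2 ht, ?_, ?_, ?_⟩
        · have h1 : S.D (S.tgt (S.inv e)) (α' ++ [S.inv e']) n' := by
            have := hR V E S (S.tgt e') (S.src e') [S.inv e'] α' n' (by simpa using b3)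
              ⟨by rw [src_inv], by rw [tgt_inv]; rfl⟩
            rw [tgt_inv, ← Tri.src' ht]; exact this
          have h2 := D.br h1 (D.nil (S.src (S.inv e)))
          rw [src_inv, S.inv_inv] at h2
          simpa [hn''] using h2
        · have := hidx 0
          simp only [Nat.add_zero] at this
          rw [this, hJ, d2]; simp
        · rw [hidx 1, hJ, d3]; simp
      · obtain ⟨f1, f2, l, r, hT, hD, hW1, hW2⟩ := ih'' hn'' c f α₂ hc
        have hcl : c.length ≤ J''.length := by
          rw [hc] at c4; simp at c4; omega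
        obtain ⟨t1, t2⟩ := transfer X'' J'' Y''.reverse Y'.reverse [S.inv e] c.length hcl
        obtain ⟨l', hl'⟩ := t1 l f1 f hW1
        obtain ⟨r', hr'⟩ := t2 _ _ r hW2
        refine ⟨f1, f2, l', r', hT, ?_, ?_, ?_⟩
        · have h1 := min_tb hI ht b3 hD
          have e1 : n' + n'' + 1 - 1 = n' + (n'' - 1) + 1 := by omega
          rw [e1]
          simpa using h1
        · have := hidx 0
          simp only [Nat.add_zero] at this
          rw [this, hl']
        · rw [hidx 1, hr']
    intro α₁ f α₂ hα
    rcases List.append_eq_append_iff.1 hα with ⟨c, hc1, hc2⟩ | ⟨c, hc1, hc2⟩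
    · subst hc1
      exact key c f α₂ hc2
    · cases c with
      | nil =>
        simp only [List.append_nil] at hc1
        simp only [List.nil_append] at hc2
        subst hc1
        have := key [] f α₂ hc2.symm
        simpa using this
      | cons c0 c' =>
        simp only [List.cons_append, List.cons.injEq] at hc2
        obtain ⟨rfl, rfl⟩ := hc2
        -- letter of the first part
        have hidx : ∀ k, k ≤ J'.length + 1 → ((e :: X') :: (J' ++ (Y'.reverse ++ X'') :: J'') ++
            [(S.inv e :: Y'').reverse])[k]? = (([e] ++ X') :: J' ++ [Y'.reverse ++ X''])[k]? := by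
          intro k hk
          have e1 : ((e :: X') :: (J' ++ (Y'.reverse ++ X'') :: J'') ++ [(S.inv e :: Y'').reverse]) =
            (([e] ++ X') :: J' ++ [Y'.reverse ++ X'']) ++ (J'' ++ [Y''.reverse ++ [S.inv e]]) := by
            simp
          rw [e1, List.getElem?_append_left (by simp; omega)]
        have hal : α₁.length ≤ J'.length := by
          rw [hc1] at b4; simp at b4; omega
        by_cases hn' : n' = 0
        · obtain ⟨d1, d2, d3⟩ := b5 hn'
          have : α₁ = [] ∧ f = e' ∧ c' = [] := by
            rw [d1] at hc1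
            cases α₁ with
            | nil => simp at hc1; exact ⟨rfl, hc1.1.symm, hc1.2⟩
            | cons a c =>
              have := congrArg List.length hc1
              simp at this
          obtain ⟨rfl, rfl, rfl⟩ := this
          have hJ : J' = [] := by
            apply List.eq_nil_of_length_eq_zero
            rw [d1] at b4; simpa using b4
          obtain ⟨X0, rfl⟩ := head_cons c7.1
          refine ⟨e, S.inv e'', [], X0, S.tri_swap ht, ?_, ?_, ?_⟩
          · have h1 := D.br (e := S.inv e) (b := []) (a := S.inv e'' :: α'') (m := 0) (n := n'')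
              (D.nil _) (by rw [src_inv, ← Tri.tgt' ht]; exact c3)
            rw [src_inv, S.inv_inv] at h1
            have e1 : n' + n'' + 1 - 1 = 0 + n'' := by omega
            rw [e1]
            simpa using h1
          · rw [hidx _ (by simp)]; simp [d2, hJ]
          · rw [hidx _ (by simp)]; simp [d3, hJ]
        · obtain ⟨f1, f2, l, r, hT, hD, hW1, hW2⟩ := ih' hn' α₁ f c' hc1
          obtain ⟨t1, t2⟩ := transfer X' J' Y'.reverse [e] X'' α₁.length hal
          obtain ⟨l', hl'⟩ := t1 l f1 f hW1
          obtain ⟨r', hr'⟩ := t2 _ _ r hW2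
          refine ⟨f1, f2, l', r', hT, ?_, ?_, ?_⟩
          · have h1 := min_tb hI ht hD c3
            have e1 : n' + n'' + 1 - 1 = n' - 1 + n'' + 1 := by omega
            rw [e1]
            simpa using h1
          · rw [hidx _ (by omega), hl']
          · rw [hidx _ (by omega), hr']
  | @ta e e' e'' α n X Y v J I ht h' hα ih =>
    obtain ⟨b1, b2, b3, b4, b5, b6, b7, b8, b9, b10, b11⟩ := hN _ _ _ _ _ _ _ _ _ _ h'
    have hn0 : n ≠ 0 := by
      intro hn0
      have := congrArg List.length (b5 hn0).1
      simp at this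
      exact hα this
    intro α₁ f α₂ hα'
    obtain ⟨f1, f2, l, r, hT, hD, hW1, hW2⟩ := ih hn0 α₁ f (α₂ ++ [S.inv e'']) (by rw [hα']; simp)
    have hlen : J.length + 1 = α.length := by simpa using b4
    have hal : α₁.length ≤ J.length := by
      rw [hα'] at hlen; simp at hlen; omega
    have hidx : ∀ k, k ≤ J.length + 1 → (X :: (J ++ [v]) ++ [Y.reverse])[k]? =
        (X :: J ++ [v])[k]? := by
      intro k hk
      have e1 : (X :: (J ++ [v]) ++ [Y.reverse]) = (X :: J ++ [v]) ++ [Y.reverse] := by simp
      rw [e1, List.getElem?_append_left (by simp; omega)]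
    rw [hidx _ (by omega)] at hW1 hW2
    obtain ⟨t1, t2⟩ := transfer X J v [e] [S.inv e] α₁.length hal
    obtain ⟨l', hl'⟩ := t1 l f1 f hW1
    obtain ⟨r', hr'⟩ := t2 _ _ r hW2
    refine ⟨f1, f2, l', r', hT, ?_, ?_, ?_⟩
    · have h1 := min_ta hR ht (α := α₁ ++ f1 :: f2 :: α₂) (m := n - 1) (by simpa using hD)
      have e1 : n + 1 - 1 = n - 1 + 1 := by omega
      rw [e1]; exact h1
    · simpa using hl'
    · simpa using hr'

/-- minimal discs are reduced, inductive form -/
theorem mir_main (hI : InsStmt) (hR : RotStmt) (hA : AreaStmt) (hN : NsBasicStmt) (hSC : S.SC)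
    {e : E} {α : List E} {n : ℕ} {X Y : List E} {J I : List (List E)}
    (h : S.NS e α n X Y J I) (hmin : ∀ x m, S.D x (S.inv e :: α) m → n ≤ m) :
    Red X ∧ Red Y ∧ (∀ v ∈ J, Red v) ∧ (∀ v ∈ I, Red (v ++ v.take 2)) := by
  obtain ⟨A1, A2, A3, A4, A5, A6, A7, A8⟩ := hA V E S hSC
  -- closing
  have close : ∀ {x : V} {a b : List E} {f : E} {m : ℕ}, S.D x (a ++ f :: S.inv f :: b) m →
      ∃ k ≤ m, ∃ y, S.D y (a ++ b) k := by
    intro x a b f m hD
    have h1 := A6 a b f ⟨x, hD.isP⟩
    have h2 := A2 _ _ _ hD
    have hP : S.IsP x (a ++ b) x := by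
      obtain ⟨z, q1, q2⟩ := isP_append.1 hD.isP
      refine isP_append.2 ⟨z, q1, ?_⟩
      have := q2.2.2
      rw [tgt_inv, q2.1] at this
      exact this
    exact ⟨S.ar (a ++ b), by omega, x, A1 _ _ hP⟩
  induction h with
  | triv e =>
    refine ⟨red_short (by simp), red_short (by simp), by simp, by simp⟩
  | @tb e e' e'' α' α'' n' n'' X' Y' X'' Y'' J' I' J'' I'' ht h' h'' ih' ih'' =>
    obtain ⟨b1, b2, b3, b4, b5, b6, b7, b8, b9, b10, b11⟩ := hN _ _ _ _ _ _ _ _ _ _ h'
    obtain ⟨c1, c2, c3, c4, c5, c6, c7, c8, c9, c10, c11⟩ := hN _ _ _ _ _ _ _ _ _ _ h''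
    have hm' : ∀ x m, S.D x (S.inv e' :: α') m → n' ≤ m := by
      intro x m hD
      have hx := hD.src_eq
      rw [src_inv] at hx; subst hx
      have := hmin _ _ (min_tb hI ht hD c3)
      omega
    have hm'' : ∀ x m, S.D x (S.inv e'' :: α'') m → n'' ≤ m := by
      intro x m hD
      have hx := hD.src_eq
      rw [src_inv] at hx; subst hx
      have := hmin _ _ (min_tb hI ht b3 hD)
      omega
    obtain ⟨r1, r2, r3, r4⟩ := ih' hm'
    obtain ⟨s1, s2, s3, s4⟩ := ih'' hm''
    -- no mirror image behind `e'`
    have M1 : ∀ f' f'', n' ≠ 0 → S.Tri e' f' f'' →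
        S.D (S.tgt e') (S.inv f'' :: S.inv f' :: α') (n' - 1) → f' ≠ e := by
      rintro f' f'' hn0 hT hD rfl
      have hf : f'' = S.inv e'' := S.tri_uniq hT (S.tri_swap ht)
      subst hf
      rw [S.inv_inv] at hD
      have hP : S.IsP (S.tgt e'') (S.inv f' :: α') (S.tgt e') := by
        have := hD.isP.2
        exact this
      have h2 : S.D (S.tgt e'') ((S.inv f' :: α') ++ [e'']) (n' - 1) :=
        hR V E S (S.tgt e') (S.tgt e'') [e''] (S.inv f' :: α') (n' - 1) (by simpa using hD)
          ⟨Tri.mid' ht, rfl⟩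
      have h3 := h2.append c3
      have h4 : S.D (S.tgt e'') ((S.inv f' :: α') ++ e'' :: S.inv e'' :: α'') (n' - 1 + n'') := by
        simpa using h3
      obtain ⟨k, hk, y, h5⟩ := close h4
      have := hmin _ _ (by simpa using h5)
      omega
    have M2 : ∀ f' f'', n'' ≠ 0 → S.Tri e'' f' f'' →
        S.D (S.tgt e'') (S.inv f'' :: S.inv f' :: α'') (n'' - 1) → f' ≠ S.inv e' := by
      rintro f' f'' hn0 hT hD rfl
      have hf : f'' = e := S.tri_uniq hT (tri2 ht)
      subst hf
      rw [S.inv_inv] at hD
      have h1 := hI V E S (S.tgt e'') (S.tgt e') [S.inv f'', e'] α'' (S.inv e' :: α') (n'' - 1) n'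
        (by simpa using hD) ⟨by rw [src_inv, Tri.tgt' ht], by rw [tgt_inv, Tri.src' ht], rfl⟩ b3
      have h4 : S.D (S.tgt e'') ([S.inv f''] ++ e' :: S.inv e' :: (α' ++ α'')) (n'' - 1 + n') := by
        simpa using h1
      obtain ⟨k, hk, y, h5⟩ := close h4
      have := hmin _ _ (by simpa using h5)
      omega
    -- second letters of the walks
    have P1 : X'[1]? ≠ some e ∧ Y'[1]? ≠ some e'' := by
      by_cases hn0 : n' = 0
      · rw [(b5 hn0).2.1, (b5 hn0).2.2]; simp
      · obtain ⟨f', f'', X0, Y0, hT, rfl, rfl, hD⟩ := root hI hR hN h' hn0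
        have hne := M1 f' f'' hn0 hT hD
        refine ⟨by simpa using hne, ?_⟩
        intro hc
        simp at hc
        have : f'' = S.inv e'' := by rw [← hc, S.inv_inv]
        subst this
        exact hne (uniq2 hT (S.tri_swap ht))
    have P2 : X''[1]? ≠ some (S.inv e') ∧ Y''[1]? ≠ some (S.inv e) := by
      by_cases hn0 : n'' = 0
      · rw [(c5 hn0).2.1, (c5 hn0).2.2]; simp
      · obtain ⟨f', f'', X0, Y0, hT, rfl, rfl, hD⟩ := root hI hR hN h'' hn0
        have hne := M2 f' f'' hn0 hT hD
        refine ⟨by simpa using hne, ?_⟩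
        intro hc
        simp at hc
        have : f'' = e := by rw [← S.inv_inv f'', hc, S.inv_inv]
        subst this
        exact hne (uniq2 hT (tri2 ht))
    obtain ⟨Y0, hY0⟩ := head_cons b8.1
    obtain ⟨X0, hX0⟩ := head_cons c7.1
    refine ⟨red_cons r1 P1.1, red_cons s2 P2.2, ?_, ?_⟩
    · intro v hv
      rw [List.mem_append, List.mem_cons] at hv
      rcases hv with hv | rfl | hv
      · exact r3 v hv
      · refine red_rev_append r2 s1 ?_ ?_
        · intro a ha
          rw [hY0] at ha
          simp at ha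
          subst ha
          exact P2.1
        · intro a ha
          rw [hX0]
          simp only [List.getElem?_cons_zero, ne_eq, Option.some.injEq]
          rintro rfl
          exact P1.2 ha
      · exact s3 v hv
    · intro v hv
      rw [List.mem_append] at hv
      rcases hv with hv | hv
      · exact r4 v hv
      · exact s4 v hv
  | @ta e e' e'' α n X Y v J I ht h' hα ih =>
    obtain ⟨b1, b2, b3, b4, b5, b6, b7, b8, b9, b10, b11⟩ := hN _ _ _ _ _ _ _ _ _ _ h'
    have hn0 : n ≠ 0 := by
      intro hn0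
      have := congrArg List.length (b5 hn0).1
      simp at this
      exact hα this
    have hm' : ∀ x m, S.D x (S.inv e' :: (α ++ [S.inv e''])) m → n ≤ m := by
      intro x m hD
      have hx := hD.src_eq
      rw [src_inv] at hx; subst hx
      have := hmin _ _ (min_ta hR ht hD)
      omega
    obtain ⟨r1, r2, r3, r4⟩ := ih hm'
    have hlen : J.length + 1 = α.length := by simpa using b4
    -- no mirror image behind `e'`
    obtain ⟨f', f'', X0, Y0, hT, hX, hY, hD⟩ := root hI hR hN h' hn0
    have M1 : f' ≠ e := by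
      rintro rfl
      have hf : f'' = S.inv e'' := S.tri_uniq hT (S.tri_swap ht)
      subst hf
      rw [S.inv_inv] at hD
      have h2 : S.D (S.tgt e'') ((S.inv f' :: (α ++ [S.inv e''])) ++ [e'']) (n - 1) :=
        hR V E S (S.tgt e') (S.tgt e'') [e''] (S.inv f' :: (α ++ [S.inv e''])) (n - 1)
          (by simpa using hD) ⟨Tri.mid' ht, rfl⟩
      have h4 : S.D (S.tgt e'') ((S.inv f' :: α) ++ S.inv e'' :: S.inv (S.inv e'') :: []) (n - 1) := by
        simpa using h2
      obtain ⟨k, hk, y, h5⟩ := close h4
      have := hmin _ _ (by simpa using h5)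
      omega
    have P1 : X[1]? ≠ some e := by rw [hX]; simpa using M1
    have P2 : Y[1]? ≠ some e'' := by
      rw [hY]
      intro hc
      simp at hc
      have : f'' = S.inv e'' := by rw [← hc, S.inv_inv]
      subst this
      exact M1 (uniq2 hT (S.tri_swap ht))
    -- the letter `inv e''`
    obtain ⟨f1, f2, l, r, hT', hD', hW1, hW2⟩ := letter hI hR hN h' hn0 α (S.inv e'') [] rfl
    have hv : v = l ++ [f1, S.inv e''] := by
      rw [← hlen, List.cons_append, List.getElem?_cons_succ,
        List.getElem?_append_left (by simp)] at hW1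
      simpa using hW1
    have hYr : Y.reverse = e'' :: S.inv f2 :: r := by
      rw [← hlen, List.cons_append, List.getElem?_cons_succ,
        List.getElem?_append_right (by simp)] at hW2
      simpa using hW2
    have M2 : f1 ≠ S.inv e := by
      rintro rfl
      have hf : f2 = e' := S.tri_uniq hT' (tri3 ht)
      subst hf
      have hP : S.IsP (S.tgt f2) ((S.inv f2 :: α) ++ [S.inv e, f2]) (S.tgt f2) := by
        simpa using hD'.isP
      have h2 : S.D (S.tgt e) ([S.inv e, f2] ++ (S.inv f2 :: α)) (n - 1) := by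
        refine hR V E S (S.tgt f2) (S.tgt e) (S.inv f2 :: α) [S.inv e, f2] (n - 1)
          (by simpa using hD') ?_
        obtain ⟨z, q1, q2⟩ := isP_append.1 hP
        have : S.tgt e = z := by rw [← q2.1, src_inv]
        rw [this]; exact q1
      have h4 : S.D (S.tgt e) ([S.inv e] ++ f2 :: S.inv f2 :: α) (n - 1) := by simpa using h2
      obtain ⟨k, hk, y, h5⟩ := close h4
      have := hmin _ _ (by simpa using h5)
      omega
    have M3 : f2 ≠ e' := by
      rintro rfl
      exact M2 (uniq2 hT' (tri3 ht))
    have hYlast : Y.reverse[0]? = some e'' := by rw [hYr]; simp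
    obtain ⟨Y1, hY1⟩ := head_cons b8.1
    refine ⟨red_cons r1 P1, ?_, ?_, ?_⟩
    · refine red_cons (red_reverse (r3 v (by simp))) ?_
      rw [hv]
      simpa using M2
    · intro w hw
      exact r3 w (by simp [hw])
    · intro w hw
      rw [List.mem_cons] at hw
      rcases hw with rfl | hw
      · have h1 : Red (w.reverse.reverse ++ w.take 2) := by
          refine red_rev_append (red_reverse r2) (red_short (by simp)) ?_ ?_
          · intro a ha
            rw [hYlast] at ha
            simp only [Option.some.injEq] at ha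
            subst ha
            rw [List.getElem?_take_of_lt (by omega)]
            exact P2
          · intro a ha
            rw [hYr] at ha
            simp only [List.getElem?_cons_succ, List.getElem?_cons_zero, Option.some.injEq] at ha
            subst ha
            rw [List.getElem?_take_of_lt (by omega), hY1]
            simp only [List.getElem?_cons_zero, ne_eq, Option.some.injEq]
            intro hc
            exact M3 (by rw [← S.inv_inv f2, ← hc, S.inv_inv])
        simpa using h1
      · exact r4 w hw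

theorem mir (hI : InsStmt) (hR : RotStmt) (_ : ColStmt) (hA : AreaStmt) (hN : NsBasicStmt) :
    MirStmt := by
  intro V E S hSC e α X Y J I h
  obtain ⟨A1, A2, A3, A4, A5, A6, A7, A8⟩ := hA V E S hSC
  exact mir_main hI hR hA hN hSC h (fun x m hD => A2 _ _ _ hD)

end Pool.Agent.ABA.B.H56
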